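import Mathlib
import Pool.Agent.MP_e5500d_nt.Main

namespace Pool.Agent.Results.MP_e5500d_nt.Both

open Pool.Agent.MP_e5500d_nt

/-- The whole conjecture: Q1 and Q2 together. -/
theorem result :
    (∀ n : ℕ, 1 ≤ n → ∃ z : ℤ, A n = (n : ℚ) * (z : ℚ)) ∧
    (∀ p : ℕ, p.Prime → Odd p →
      ∃ z : ℤ, A p - 2 * (p : ℚ) * (-1) ^ ((p + 1) / 2) = (p : ℚ) ^ 2 * (z : ℚ)) :=
  ⟨q1, q2⟩

end Pool.Agent.Results.MP_e5500d_nt.Both
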